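import Pool.Agent.T2H92.RZ.Stm

/-! # Package BC: Borel-Cantelli -/

set_option autoImplicit false

namespace Pool.Agent.T2H92.RZ

open MeasureTheory ProbabilityTheory Filter Topology

namespace BC

theorem summ (ρ s : ℝ) (hρ0 : 0 ≤ ρ) (hρ1 : ρ < 1) (hs : 0 < s) (c : ℕ → ℕ)
    (hc : ∀ᶠ M : ℕ in atTop, (M : ℝ) ^ s ≤ (c M : ℝ)) : Summable fun M => ρ ^ (c M / 2) := by
  obtain ⟨k, hk⟩ := exists_nat_ge (2 / s)
  have hsk : 2 ≤ s * k := by
    rw [div_le_iff₀ hs] at hk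
    linarith
  have hlim : Tendsto (fun M : ℕ => (M : ℝ) ^ s) atTop atTop :=
    (tendsto_rpow_atTop hs).comp tendsto_natCast_atTop_atTop
  have h1 : ∀ᶠ M : ℕ in atTop, (M : ℝ) ^ s / 4 ≤ ((c M / 2 : ℕ) : ℝ) := by
    filter_upwards [hc, hlim.eventually (eventually_ge_atTop 2)] with M hM hM2
    have h2 : c M ≤ 2 * (c M / 2) + 1 := by omega
    have h3 : (c M : ℝ) ≤ 2 * ((c M / 2 : ℕ) : ℝ) + 1 := by exact_mod_cast h2
    linarith
  have h2 : Tendsto (fun M => c M / 2) atTop atTop := by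
    rw [← tendsto_natCast_atTop_iff (R := ℝ)]
    exact tendsto_atTop_mono' _ h1 (hlim.atTop_div_const (by norm_num))
  have h3 : ∀ᶠ n : ℕ in atTop, (n : ℝ) ^ k * ρ ^ n ≤ 1 := by
    have := tendsto_pow_const_mul_const_pow_of_abs_lt_one k (r := ρ) (by
      rw [abs_of_nonneg hρ0]
      exact hρ1)
    exact this.eventually_le_const (by norm_num)
  have h4 := h2.eventually h3
  refine Summable.of_norm_bounded_eventually_nat (g := fun M : ℕ => 4 ^ k * (1 / (M : ℝ) ^ 2))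
    ((Real.summable_one_div_nat_pow.2 (by norm_num)).mul_left _) ?_
  filter_upwards [h1, h4, eventually_ge_atTop 1] with M a b hM
  have hM1 : (1 : ℝ) ≤ M := by exact_mod_cast hM
  have hM0 : (0 : ℝ) < M := by linarith
  have hx : 0 < (M : ℝ) ^ s / 4 := by positivity
  rw [Real.norm_eq_abs, abs_of_nonneg (by positivity)]
  have h5 : ((M : ℝ) ^ s / 4) ^ k ≤ ((c M / 2 : ℕ) : ℝ) ^ k := pow_le_pow_left₀ hx.le a k
  have h6 : ((M : ℝ) ^ s / 4) ^ k * ρ ^ (c M / 2) ≤ 1 :=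
    (mul_le_mul_of_nonneg_right h5 (by positivity)).trans b
  have h7 : ρ ^ (c M / 2) ≤ 1 / ((M : ℝ) ^ s / 4) ^ k := by
    rw [le_div_iff₀ (by positivity), mul_comm]
    exact h6
  refine h7.trans ?_
  have h8 : ((M : ℝ) ^ s) ^ k = (M : ℝ) ^ (s * k) := by
    rw [Real.rpow_mul hM0.le, Real.rpow_natCast]
  have h9 : (M : ℝ) ^ 2 ≤ (M : ℝ) ^ (s * k) := by
    rw [← Real.rpow_two]
    exact Real.rpow_le_rpow_of_exponent_le hM1 hsk
  rw [div_pow, h8, one_div_div, div_eq_mul_one_div]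
  exact mul_le_mul_of_nonneg_left (one_div_le_one_div_of_le (by positivity) h9) (by positivity)

end BC

open BC in
theorem pBC (h : S_PROB) : S_BC := by
  intro Ω _ P _ X hX hind a q ha hq hq1 h1 h2 F s hs hF
  have hρ0 : 0 ≤ 1 - q ^ 2 := by nlinarith
  have hρ1 : 1 - q ^ 2 < 1 := by nlinarith [sq_pos_of_pos hq]
  have hsum := summ (1 - q ^ 2) s hρ0 hρ1 hs (fun M => (F M).card) hF
  have hfin : ∑' M, P {ω | ∀ n ∈ F M, ¬ (a ≤ X n ω ∧ X (n + 1) ω ≤ -a)} ≠ ⊤ := by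
    have h3 : ∑' M, P {ω | ∀ n ∈ F M, ¬ (a ≤ X n ω ∧ X (n + 1) ω ≤ -a)} ≤
        ∑' M, ENNReal.ofReal ((1 - q ^ 2) ^ ((F M).card / 2)) :=
      ENNReal.tsum_le_tsum fun M => h Ω P X hX hind a q ha hq hq1 h1 h2 (F M)
    exact (h3.trans_lt hsum.tsum_ofReal_lt_top).ne
  filter_upwards [ae_eventually_notMem hfin] with ω hω
  filter_upwards [hω] with M hM
  by_contra hcon
  refine hM fun n hn hh => hcon ⟨n, hn, hh⟩

end Pool.Agent.T2H92.RZ
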