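import Mathlib

/-! # Random perturbations: the deterministic step -/

set_option autoImplicit false

open Filter Topology

namespace Pool.Agent.T2H92.RZ

namespace DET

/-- the deterministic step: two ordinates that move towards each other -/
theorem det (a δ η : ℝ) (hδ : 0 < δ) (ha8 : a ≤ 1 / 8) (hη : 0 < η) (hη2 : 2 * η = 2 * a - δ) :
    ∀ᶠ M : ℕ in atTop,
    ∀ T u v x y : ℝ, (M : ℝ) ≤ T → T ≤ (M : ℝ) + 1 → (M : ℝ) + 2 ≤ u → u ≤ v →
      v ≤ 2 * (M : ℝ) - 1 → v - u < (1 / 2 + η) * (2 * Real.pi / Real.log (M : ℝ)) →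
      |x| ≤ 1 / 8 → |y| ≤ 1 / 8 → a ≤ x → y ≤ -a →
      T ≤ u + x * (2 * Real.pi / Real.log u) ∧ u + x * (2 * Real.pi / Real.log u) ≤ 2 * T ∧
      T ≤ v + y * (2 * Real.pi / Real.log v) ∧ v + y * (2 * Real.pi / Real.log v) ≤ 2 * T ∧
      (v + y * (2 * Real.pi / Real.log v)) - (u + x * (2 * Real.pi / Real.log u)) <
        (1 / 2 - δ) * (2 * Real.pi / Real.log T) ∧
      (u + x * (2 * Real.pi / Real.log u)) - (v + y * (2 * Real.pi / Real.log v)) <
        (1 / 2 - δ) * (2 * Real.pi / Real.log T) := by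
  have hlog : Tendsto (fun M : ℕ => Real.log (M : ℝ)) atTop atTop :=
    Real.tendsto_log_atTop.comp tendsto_natCast_atTop_atTop
  filter_upwards [hlog.eventually_ge_atTop 2, hlog.eventually_gt_atTop (1 / η),
    eventually_ge_atTop 10] with M hL2 hLa hM10
  intro T u v x y hT1 hT2 hu huv hv hgap hx8 hy8 hx hy
  have ha : 0 < a := by linarith
  have hM : (10 : ℝ) ≤ (M : ℝ) := by exact_mod_cast hM10
  have hMpos : (0 : ℝ) < (M : ℝ) := by linarith
  set L : ℝ := Real.log (M : ℝ) with hL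
  have hl2 : Real.log 2 < 0.7 := by
    have := Real.log_two_lt_d9
    linarith
  have hl2' : 0 < Real.log 2 := Real.log_pos (by norm_num)
  have hpi := Real.pi_pos
  have hpi4 : Real.pi < 4 := by linarith [Real.pi_lt_four]
  have e2 : Real.log (2 * (M : ℝ)) = L + Real.log 2 := by
    rw [Real.log_mul (by norm_num) hMpos.ne', hL]
    ring
  -- bounds for the logarithms
  have hLu : L ≤ Real.log u := Real.log_le_log hMpos (by linarith)
  have hLv : L ≤ Real.log v := Real.log_le_log hMpos (by linarith)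
  have hLT : L ≤ Real.log T := Real.log_le_log hMpos hT1
  have hu2 : Real.log u ≤ L + Real.log 2 := by
    rw [← e2]
    exact Real.log_le_log (by linarith) (by linarith)
  have hv2 : Real.log v ≤ L + Real.log 2 := by
    rw [← e2]
    exact Real.log_le_log (by linarith) (by linarith)
  have hT2' : Real.log T ≤ L + Real.log 2 := by
    rw [← e2]
    exact Real.log_le_log (by linarith) (by linarith)
  have hLpos : 0 < L := by linarith
  set p : ℝ := 2 * Real.pi / L with hp
  set p2 : ℝ := 2 * Real.pi / (L + Real.log 2) with hp2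
  have hppos : 0 < p := by rw [hp]; positivity
  have hp2pos : 0 < p2 := by rw [hp2]; positivity
  have b1 : 2 * Real.pi / Real.log u ≤ p :=
    div_le_div_of_nonneg_left (by positivity) hLpos hLu
  have b2 : 2 * Real.pi / Real.log v ≤ p :=
    div_le_div_of_nonneg_left (by positivity) hLpos hLv
  have b3 : p2 ≤ 2 * Real.pi / Real.log u :=
    div_le_div_of_nonneg_left (by positivity) (by linarith) hu2
  have b4 : p2 ≤ 2 * Real.pi / Real.log v :=
    div_le_div_of_nonneg_left (by positivity) (by linarith) hv2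
  have b5 : p2 ≤ 2 * Real.pi / Real.log T :=
    div_le_div_of_nonneg_left (by positivity) (by linarith) hT2'
  set pu : ℝ := 2 * Real.pi / Real.log u with hpu
  set pv : ℝ := 2 * Real.pi / Real.log v with hpv
  set pT : ℝ := 2 * Real.pi / Real.log T with hpT
  have hp4 : p ≤ 4 := by
    rw [hp, div_le_iff₀ hLpos]
    nlinarith
  -- `L p = 2 π = (L + log 2) p2`
  have c1 : L * p = 2 * Real.pi := by
    rw [hp]
    field_simp
  have c2 : (L + Real.log 2) * p2 = 2 * Real.pi := by
    rw [hp2]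
    field_simp
  have hLa' : 1 < L * η := by
    rwa [div_lt_iff₀ hη] at hLa
  have c3 : 1 / 4 * p < (1 / 4 + 2 * η) * p2 := by
    have h1 : 1 / 4 * (L + Real.log 2) < (1 / 4 + 2 * η) * L := by
      have e5 : (1 / 4 + 2 * η) * L = 1 / 4 * L + 2 * (L * η) := by ring
      rw [e5]
      norm_num at hl2
      linarith
    have h2 : L * (1 / 4 * p) < L * ((1 / 4 + 2 * η) * p2) := by
      have e3 : L * (1 / 4 * p) = 1 / 4 * (L + Real.log 2) * p2 := by
        calc L * (1 / 4 * p) = 1 / 4 * (L * p) := by ring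
          _ = 1 / 4 * ((L + Real.log 2) * p2) := by rw [c1, c2]
          _ = 1 / 4 * (L + Real.log 2) * p2 := by ring
      have e6 : L * ((1 / 4 + 2 * η) * p2) = (1 / 4 + 2 * η) * L * p2 := by ring
      rw [e3, e6]
      exact mul_lt_mul_of_pos_right h1 hp2pos
    exact lt_of_mul_lt_mul_left h2 hLpos.le
  have c4 : (1 / 2 + η) * p < (1 / 2 + 2 * η) * p2 := by
    have h0 : (1 / 2 + η) * Real.log 2 ≤ 5 / 8 * 0.7 :=
      mul_le_mul (by linarith) hl2.le hl2'.le (by norm_num)
    have h1 : (1 / 2 + η) * (L + Real.log 2) < (1 / 2 + 2 * η) * L := by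
      have e4 : (1 / 2 + η) * (L + Real.log 2) =
        1 / 2 * L + L * η + (1 / 2 + η) * Real.log 2 := by ring
      have e5 : (1 / 2 + 2 * η) * L = 1 / 2 * L + 2 * (L * η) := by ring
      rw [e4, e5]
      norm_num at h0
      linarith
    have h2 : L * ((1 / 2 + η) * p) < L * ((1 / 2 + 2 * η) * p2) := by
      have e3 : L * ((1 / 2 + η) * p) = (1 / 2 + η) * (L + Real.log 2) * p2 := by
        calc L * ((1 / 2 + η) * p) = (1 / 2 + η) * (L * p) := by ring
          _ = (1 / 2 + η) * ((L + Real.log 2) * p2) := by rw [c1, c2]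
          _ = (1 / 2 + η) * (L + Real.log 2) * p2 := by ring
      have e6 : L * ((1 / 2 + 2 * η) * p2) = (1 / 2 + 2 * η) * L * p2 := by ring
      rw [e3, e6]
      exact mul_lt_mul_of_pos_right h1 hp2pos
    exact lt_of_mul_lt_mul_left h2 hLpos.le
  obtain ⟨hx1, hx2⟩ := abs_le.mp hx8
  obtain ⟨hy1, hy2⟩ := abs_le.mp hy8
  have hpu0 : 0 < pu := hp2pos.trans_le b3
  have hpv0 : 0 < pv := hp2pos.trans_le b4
  -- the products
  have d1 : a * p2 ≤ x * pu := by
    calc a * p2 ≤ a * pu := mul_le_mul_of_nonneg_left b3 ha.le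
      _ ≤ x * pu := mul_le_mul_of_nonneg_right hx hpu0.le
  have d2 : x * pu ≤ 1 / 8 * p := by
    calc x * pu ≤ 1 / 8 * pu := mul_le_mul_of_nonneg_right hx2 hpu0.le
      _ ≤ 1 / 8 * p := mul_le_mul_of_nonneg_left b1 (by norm_num)
  have d3 : y * pv ≤ -(a * p2) := by
    have h1 : a * p2 ≤ a * pv := mul_le_mul_of_nonneg_left b4 ha.le
    have h2 : y * pv ≤ -a * pv := mul_le_mul_of_nonneg_right hy hpv0.le
    linarith
  have d4 : -(1 / 8 * p) ≤ y * pv := by
    have h1 : -(1 / 8) * pv ≤ y * pv := mul_le_mul_of_nonneg_right hy1 hpv0.le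
    have h2 : 1 / 8 * pv ≤ 1 / 8 * p := mul_le_mul_of_nonneg_left b2 (by norm_num)
    linarith
  have d5 : (1 / 2 - δ) * p2 ≤ (1 / 2 - δ) * pT :=
    mul_le_mul_of_nonneg_left b5 (by linarith)
  have hap2 : 0 < a * p2 := mul_pos ha hp2pos
  refine ⟨by linarith, by linarith, by linarith, by linarith, ?_, ?_⟩
  · have h3 : (1 / 2 + 2 * η) * p2 - 2 * (a * p2) = (1 / 2 - δ) * p2 := by
      rw [hη2]
      ring
    linarith
  · have h3 : (1 / 4 + 2 * η) * p2 ≤ (1 / 2 - δ) * p2 :=
      mul_le_mul_of_nonneg_right (by linarith) hp2pos.le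
    linarith

end DET

end Pool.Agent.T2H92.RZ
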