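import Pool.Agent.T2H92.RZ.Stm

set_option autoImplicit false

namespace Pool.Agent.T2H92.RZ

open MeasureTheory ProbabilityTheory Filter Topology

namespace PROB

theorem single {Ω : Type} [MeasurableSpace Ω] (P : Measure Ω) [IsProbabilityMeasure P]
    (X : ℕ → Ω → ℝ) (hm : ∀ n, Measurable (X n)) (hi : iIndepFun X P) (a q : ℝ) (hq0 : 0 < q)
    (h1 : ∀ n, ENNReal.ofReal q ≤ P {ω | a ≤ X n ω})
    (h2 : ∀ n, ENNReal.ofReal q ≤ P {ω | X n ω ≤ -a}) (n : ℕ) :
    P {ω | ¬ (a ≤ X n ω ∧ X (n + 1) ω ≤ -a)} ≤ ENNReal.ofReal (1 - q ^ 2) := by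
  have hE : P {ω | a ≤ X n ω ∧ X (n + 1) ω ≤ -a} =
      P {ω | a ≤ X n ω} * P {ω | X (n + 1) ω ≤ -a} :=
    (hi.indepFun (by omega : n ≠ n + 1)).measure_inter_preimage_eq_mul (Set.Ici a) (Set.Iic (-a))
      measurableSet_Ici measurableSet_Iic
  have hge : ENNReal.ofReal (q ^ 2) ≤ P {ω | a ≤ X n ω ∧ X (n + 1) ω ≤ -a} := by
    rw [hE, sq, ENNReal.ofReal_mul hq0.le]
    exact mul_le_mul' (h1 n) (h2 (n + 1))
  have hmeas : MeasurableSet {ω | a ≤ X n ω ∧ X (n + 1) ω ≤ -a} :=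
    (measurableSet_le measurable_const (hm n)).inter
      (measurableSet_le (hm (n + 1)) measurable_const)
  have hc : P {ω | ¬ (a ≤ X n ω ∧ X (n + 1) ω ≤ -a)} =
      1 - P {ω | a ≤ X n ω ∧ X (n + 1) ω ≤ -a} := prob_compl_eq_one_sub hmeas
  rw [hc, ENNReal.ofReal_sub 1 (sq_nonneg q), ENNReal.ofReal_one]
  exact tsub_le_tsub_left hge 1

theorem par {Ω : Type} [MeasurableSpace Ω] (P : Measure Ω) [IsProbabilityMeasure P]
    (X : ℕ → Ω → ℝ) (hm : ∀ n, Measurable (X n)) (hi : iIndepFun X P) (a q : ℝ) (hq0 : 0 < q)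
    (hq1 : q ≤ 1) (h1 : ∀ n, ENNReal.ofReal q ≤ P {ω | a ≤ X n ω})
    (h2 : ∀ n, ENNReal.ofReal q ≤ P {ω | X n ω ≤ -a}) (r : ℕ) (F : Finset ℕ)
    (hF : ∀ n ∈ F, n % 2 = r) :
    P {ω | ∀ n ∈ F, ¬ (a ≤ X n ω ∧ X (n + 1) ω ≤ -a)} ≤ ENNReal.ofReal ((1 - q ^ 2) ^ F.card) := by
  classical
  have hρ : 0 ≤ 1 - q ^ 2 := by nlinarith
  induction F using Finset.induction_on with
  | empty => simp
  | insert n F hn ih =>
    have ih' := ih (fun m hm' => hF m (Finset.mem_insert_of_mem hm'))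
    have hT0 : ∀ m ∈ F, m ∈ F ∪ F.image (fun x => x + 1) := fun m h => Finset.mem_union_left _ h
    have hT1 : ∀ m ∈ F, m + 1 ∈ F ∪ F.image (fun x => x + 1) := fun m h =>
      Finset.mem_union_right _ (Finset.mem_image.mpr ⟨m, h, rfl⟩)
    have hnS : n ∈ ({n, n + 1} : Finset ℕ) := by simp
    have hnS1 : n + 1 ∈ ({n, n + 1} : Finset ℕ) := by simp
    have hn2 : n % 2 = r := hF n (Finset.mem_insert_self _ _)
    have hST : Disjoint ({n, n + 1} : Finset ℕ) (F ∪ F.image (fun x => x + 1)) := by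
      rw [Finset.disjoint_left]
      intro x hx hx'
      rw [Finset.mem_insert, Finset.mem_singleton] at hx
      rw [Finset.mem_union, Finset.mem_image] at hx'
      rcases hx' with h | ⟨m, h, rfl⟩
      · have hx2 := hF x (Finset.mem_insert_of_mem h)
        rcases hx with rfl | rfl
        · exact hn h
        · omega
      · have hm2 := hF m (Finset.mem_insert_of_mem h)
        rcases hx with h3 | h3
        · omega
        · have : m = n := by omega
          exact hn (this ▸ h)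
    have hind := hi.indepFun_finset _ _ hST hm
    have hA : MeasurableSet {v : ({n, n + 1} : Finset ℕ) → ℝ |
        ¬ (a ≤ v ⟨n, hnS⟩ ∧ v ⟨n + 1, hnS1⟩ ≤ -a)} :=
      ((measurableSet_le measurable_const (measurable_pi_apply _)).inter
        (measurableSet_le (measurable_pi_apply _) measurable_const)).compl
    have hB : MeasurableSet {v : (F ∪ F.image (fun x => x + 1) : Finset ℕ) → ℝ |
        ∀ m (h : m ∈ F), ¬ (a ≤ v ⟨m, hT0 m h⟩ ∧ v ⟨m + 1, hT1 m h⟩ ≤ -a)} := by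
      have e : {v : (F ∪ F.image (fun x => x + 1) : Finset ℕ) → ℝ |
          ∀ m (h : m ∈ F), ¬ (a ≤ v ⟨m, hT0 m h⟩ ∧ v ⟨m + 1, hT1 m h⟩ ≤ -a)} =
          ⋂ m, ⋂ (h : m ∈ F), {v : (F ∪ F.image (fun x => x + 1) : Finset ℕ) → ℝ |
            ¬ (a ≤ v ⟨m, hT0 m h⟩ ∧ v ⟨m + 1, hT1 m h⟩ ≤ -a)} := by
        ext v
        simp only [Set.mem_iInter, Set.mem_ofPred_eq]
      rw [e]
      refine MeasurableSet.iInter fun m => MeasurableSet.iInter fun h => ?_
      exact ((measurableSet_le measurable_const (measurable_pi_apply _)).inter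
        (measurableSet_le (measurable_pi_apply _) measurable_const)).compl
    have key := hind.measure_inter_preimage_eq_mul _ _ hA hB
    have hsub : {ω | ∀ m ∈ insert n F, ¬ (a ≤ X m ω ∧ X (m + 1) ω ≤ -a)} =
        ((fun ω (i : ({n, n + 1} : Finset ℕ)) => X i ω) ⁻¹'
          {v | ¬ (a ≤ v ⟨n, hnS⟩ ∧ v ⟨n + 1, hnS1⟩ ≤ -a)}) ∩
        ((fun ω (i : (F ∪ F.image (fun x => x + 1) : Finset ℕ)) => X i ω) ⁻¹'
          {v | ∀ m (h : m ∈ F), ¬ (a ≤ v ⟨m, hT0 m h⟩ ∧ v ⟨m + 1, hT1 m h⟩ ≤ -a)}) := by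
      ext ω
      constructor
      · intro h
        exact ⟨h n (Finset.mem_insert_self _ _), fun m hm' => h m (Finset.mem_insert_of_mem hm')⟩
      · rintro ⟨h3, h4⟩ m hm'
        rcases Finset.mem_insert.mp hm' with rfl | h5
        · exact h3
        · exact h4 m h5
    rw [hsub, key, Finset.card_insert_of_notMem hn, pow_succ', ENNReal.ofReal_mul hρ]
    exact mul_le_mul' (single P X hm hi a q hq0 h1 h2 n) ih'

end PROB

/-- The product bound. -/
theorem pPROB : S_PROB := by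
  intro Ω _ P _ X hm hi a q _ hq0 hq1 h1 h2 F
  have hρ : 0 ≤ 1 - q ^ 2 := by nlinarith
  have hρ1 : 1 - q ^ 2 ≤ 1 := by nlinarith [sq_nonneg q]
  have hcard : (F.filter fun n => n % 2 = 0).card + (F.filter fun n => ¬ n % 2 = 0).card = F.card :=
    Finset.card_filter_add_card_filter_not _
  have aux : ∀ G : Finset ℕ, G ⊆ F → F.card / 2 ≤ G.card → (∃ r, ∀ n ∈ G, n % 2 = r) →
      P {ω | ∀ n ∈ F, ¬ (a ≤ X n ω ∧ X (n + 1) ω ≤ -a)} ≤
        ENNReal.ofReal ((1 - q ^ 2) ^ (F.card / 2)) := by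
    rintro G hG hc ⟨r, hr⟩
    refine (measure_mono ?_).trans ((PROB.par P X hm hi a q hq0 hq1 h1 h2 r G hr).trans ?_)
    · intro ω h n hn
      exact h n (hG hn)
    · exact ENNReal.ofReal_le_ofReal (pow_le_pow_of_le_one hρ hρ1 hc)
  rcases le_total ((F.filter fun n => n % 2 = 0).card) ((F.filter fun n => ¬ n % 2 = 0).card)
    with h | h
  · refine aux (F.filter fun n => ¬ n % 2 = 0) (Finset.filter_subset _ _) (by omega) ⟨1, ?_⟩
    intro n hn
    rw [Finset.mem_filter] at hn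
    omega
  · refine aux (F.filter fun n => n % 2 = 0) (Finset.filter_subset _ _) (by omega) ⟨0, ?_⟩
    intro n hn
    rw [Finset.mem_filter] at hn
    exact hn.2

end Pool.Agent.T2H92.RZ
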