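import Pool.Agent.T2H92.RZ.CNT
import Pool.Agent.T2H92.RZ.DET
import Pool.Agent.T2H92.RZ.PROB
import Pool.Agent.T2H92.RZ.BC

/-! # Random perturbations of the ordinates of the zeros of zeta: assembly -/

set_option autoImplicit false

namespace Pool.Agent.T2H92.RZ

open MeasureTheory ProbabilityTheory Filter Topology

/-- the perturbed ordinate -/
noncomputable def pert (x : ℕ → ℝ) (n : ℕ) : ℝ :=
  SG.ord n + x n * (2 * Real.pi / Real.log (SG.ord n))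

theorem rz_main (Ω : Type) [MeasurableSpace Ω] (P : Measure Ω) [IsProbabilityMeasure P]
    (X : ℕ → Ω → ℝ) (hX : ∀ n, Measurable (X n)) (hind : iIndepFun X P)
    (hb : ∀ n ω, |X n ω| ≤ 1 / 8) (a q δ : ℝ) (hδ : 0 < δ) (hδa : δ < 2 * a) (hq : 0 < q)
    (hup : ∀ n, ENNReal.ofReal q ≤ P {ω | a ≤ X n ω})
    (hlo : ∀ n, ENNReal.ofReal q ≤ P {ω | X n ω ≤ -a}) :
    ∀ᵐ ω ∂P, ∃ T₀ : ℝ, ∀ T : ℝ, T₀ ≤ T → ∃ m n : ℕ, 1 ≤ m ∧ 1 ≤ n ∧ m ≠ n ∧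
      T ≤ pert (fun k => X k ω) m ∧ pert (fun k => X k ω) m ≤ pert (fun k => X k ω) n ∧
      pert (fun k => X k ω) n ≤ 2 * T ∧
      pert (fun k => X k ω) n - pert (fun k => X k ω) m <
        (1 / 2 - δ) * (2 * Real.pi / Real.log T) := by
  have hq1 : q ≤ 1 := by
    have h1 : ENNReal.ofReal q ≤ 1 := (hup 0).trans prob_le_one
    rwa [ENNReal.ofReal_le_one] at h1
  have ha0 : 0 < a := by linarith
  have ha8 : a ≤ 1 / 8 := by
    have h1 : 0 < P {ω | a ≤ X 0 ω} := lt_of_lt_of_le (ENNReal.ofReal_pos.mpr hq) (hup 0)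
    have h2 : {ω | a ≤ X 0 ω}.Nonempty := by
      by_contra h
      rw [Set.not_nonempty_iff_eq_empty] at h
      rw [h, measure_empty] at h1
      exact lt_irrefl _ h1
    obtain ⟨ω, hω⟩ := h2
    have h3 := (abs_le.mp (hb 0 ω)).2
    have h4 : a ≤ X 0 ω := hω
    linarith
  obtain ⟨η, hη⟩ : ∃ η : ℝ, η = (2 * a - δ) / 2 := ⟨_, rfl⟩
  have hη0 : 0 < η := by rw [hη]; linarith
  have hη2 : 2 * η = 2 * a - δ := by rw [hη]; ring
  obtain ⟨s, hs, hcnt⟩ := CNT.main (1 / 2 + η) (by linarith)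
  have hcnt' : ∀ᶠ M : ℕ in atTop, (M : ℝ) ^ s ≤
      (((fun M : ℕ => (CNT.FS_finite (1 / 2 + η) (M : ℝ)).toFinset) M).card : ℝ) :=
    tendsto_natCast_atTop_atTop.eventually hcnt
  have hbc := pBC pPROB Ω P X hX hind a q ha0 hq hq1 hup hlo
    (fun M : ℕ => (CNT.FS_finite (1 / 2 + η) (M : ℝ)).toFinset) s hs hcnt'
  have hdet := DET.det a δ η hδ ha8 hη0 hη2
  filter_upwards [hbc] with ω hω
  obtain ⟨M0, hM0⟩ := eventually_atTop.mp (hω.and hdet)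
  refine ⟨max (M0 : ℝ) 0, ?_⟩
  intro T hT
  have hT0 : 0 ≤ T := (le_max_right _ _).trans hT
  have hfl : M0 ≤ ⌊T⌋₊ := Nat.le_floor ((le_max_left _ _).trans hT)
  obtain ⟨⟨n, hn, h1, h2⟩, h3⟩ := hM0 ⌊T⌋₊ hfl
  have hn' := (Set.Finite.mem_toFinset _).mp hn
  obtain ⟨a1, a2, a3, a4⟩ := hn'
  have h4 := h3 T (SG.ord n) (SG.ord (n + 1)) (X n ω) (X (n + 1) ω) (Nat.floor_le hT0)
    (Nat.lt_floor_add_one T).le a2 (SG.ord_mono a1 (by omega)) a3 a4 (hb _ _) (hb _ _) h1 h2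
  obtain ⟨b1, b2, b3, b4, b5, b6⟩ := h4
  rcases le_total (pert (fun k => X k ω) n) (pert (fun k => X k ω) (n + 1)) with h | h
  · exact ⟨n, n + 1, a1, by omega, by omega, b1, h, b4, b5⟩
  · exact ⟨n + 1, n, by omega, a1, by omega, b3, h, b2, b6⟩

end Pool.Agent.T2H92.RZ
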