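import Pool.Agent.W192.AW.Final3

/-! # Random perturbations: many small gaps well inside `[M, 2M]` -/

set_option autoImplicit false

open Complex Filter Topology Set MeasureTheory

namespace Pool.Agent.T2H92.RZ

namespace CNT

open SG hiding dd nn Sep cc
open Pool.Agent.W192.AW

/-- the gaps below `c` times the mean spacing, well inside `[M, 2M]` -/
def FS (c M : ℝ) : Set ℕ :=
  {n : ℕ | 1 ≤ n ∧ M + 2 ≤ ord n ∧ ord (n + 1) ≤ 2 * M - 1 ∧
    ord (n + 1) - ord n < c * (2 * Real.pi / Real.log M)}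

theorem FS_finite (c M : ℝ) : (FS c M).Finite := by
  apply (smallSet_finite (c * (2 * Real.pi / Real.log M)) M).subset
  rintro n ⟨a1, a2, a3, a4⟩
  exact ⟨a1, by linarith, by linarith, a4.le⟩

theorem main (c : ℝ) (hc : 1 / 2 < c) : ∃ s : ℝ, 0 < s ∧
    ∀ᶠ M : ℝ in atTop, M ^ s ≤ ((FS_finite c M).toFinset.card : ℝ) := by
  have hc0 : 0 < c := by linarith
  have hcinv : 1 / c < 2 := by
    rw [div_lt_iff₀ hc0]
    linarith
  set θ : ℝ := max (1 / 2) (1 / c - 1) with hθdef
  have hθ : 0 < θ := lt_of_lt_of_le (by norm_num) (le_max_left _ _)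
  have hθ1 : θ < 1 := max_lt (by norm_num) (by linarith)
  have hcθ : 2 < c * (3 + θ) := by
    have h1 : 1 / c - 1 ≤ θ := le_max_right _ _
    have h2 : c * (3 + (1 / c - 1)) ≤ c * (3 + θ) := by
      apply mul_le_mul_of_nonneg_left _ hc0.le
      linarith
    have h3 : c * (3 + (1 / c - 1)) = 2 * c + 1 := by
      field_simp
      ring
    linarith
  obtain ⟨C, T1, hC, h1⟩ := almost_all 1
  have ev1 : ∀ᶠ T : ℝ in atTop, Real.log T ^ 40 ≤ T ^ θ := by
    have h1 : (fun x : ℝ => Real.log x ^ (40 : ℝ)) =o[atTop] fun x => x ^ θ :=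
      isLittleO_log_rpow_rpow_atTop 40 hθ
    have h2 := h1.bound (show (0 : ℝ) < 1 by norm_num)
    filter_upwards [h2, eventually_ge_atTop 1] with T h4 h6
    have hlog : 0 ≤ Real.log T := Real.log_nonneg h6
    rw [Real.norm_eq_abs, Real.norm_eq_abs, abs_of_nonneg (Real.rpow_nonneg hlog _),
      abs_of_nonneg (Real.rpow_nonneg (by linarith) _), one_mul] at h4
    have : Real.log T ^ (40 : ℝ) = Real.log T ^ 40 := by
      rw [show (40 : ℝ) = ((40 : ℕ) : ℝ) by norm_num, Real.rpow_natCast]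
    rwa [this] at h4
  have ev2 : ∀ᶠ T : ℝ in atTop, T ^ θ ≤ T / 4 := by
    have h2 : Tendsto (fun T : ℝ => T ^ (1 - θ)) atTop atTop := tendsto_rpow_atTop (by linarith)
    filter_upwards [h2.eventually_ge_atTop 4, eventually_gt_atTop 0] with T h3 h4
    have h5 : T ^ θ * T ^ (1 - θ) = T := by
      rw [← Real.rpow_add h4]
      simp
    have h6 : 0 < T ^ θ := Real.rpow_pos_of_pos h4 _
    nlinarith
  have hll : Tendsto (fun T : ℝ => Real.log (Real.log T) / Real.log T) atTop (𝓝 0) := by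
    have h1 := Real.isLittleO_log_id_atTop.comp_tendsto Real.tendsto_log_atTop
    exact h1.tendsto_div_nhds_zero
  have ev3 : ∀ᶠ T : ℝ in atTop, 2 * (1 + C * (Real.log (Real.log T) / Real.log T)) < c * (3 + θ) := by
    have h2 : Tendsto (fun T : ℝ => 2 * (1 + C * (Real.log (Real.log T) / Real.log T))) atTop
        (𝓝 (2 * (1 + C * 0))) := (tendsto_const_nhds.add (hll.const_mul C)).const_mul 2
    rw [mul_zero, add_zero, mul_one] at h2
    exact h2.eventually (gt_mem_nhds hcθ)
  have ev4 : ∀ᶠ T : ℝ in atTop, 2 ≤ T ^ ((1 - θ) / 2) :=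
    (tendsto_rpow_atTop (by linarith : 0 < (1 - θ) / 2)).eventually_ge_atTop 2
  refine ⟨(1 - θ) / 2, by linarith, ?_⟩
  filter_upwards [ev1, ev2, ev3, ev4, eventually_ge_atTop T1, eventually_ge_atTop (Real.exp 100),
    eventually_ge_atTop (100 : ℝ)] with T k1 k2 k3 k4 hTT1 hTe hT100
  have hTpos : 0 < T := by linarith
  have hL : 100 ≤ Real.log T := by
    rw [Real.le_log_iff_exp_le hTpos]
    exact hTe
  have hpi := Real.pi_pos
  set H : ℝ := T ^ θ with hH
  have hHpos : 0 < H := Real.rpow_pos_of_pos hTpos _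
  have h2 := h1 T H hTT1 k1 (by linarith)
  have hlt : gb C H T < c * (2 * Real.pi / Real.log T) := by
    unfold gb
    have e2 : Real.log (T ^ 3 * T ^ θ) = (3 + θ) * Real.log T := by
      rw [Real.log_mul (by positivity) (by positivity), Real.log_pow, Real.log_rpow hTpos]
      push_cast
      ring
    rw [e2]
    have e3 : 4 * Real.pi / ((3 + θ) * Real.log T) *
        (1 + C * (Real.log (Real.log T) / Real.log T)) =
        (2 * Real.pi / ((3 + θ) * Real.log T)) *
          (2 * (1 + C * (Real.log (Real.log T) / Real.log T))) := by ring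
    have e4 : c * (2 * Real.pi / Real.log T) =
        (2 * Real.pi / ((3 + θ) * Real.log T)) * (c * (3 + θ)) := by
      have : (3 + θ) ≠ 0 := by linarith
      have : Real.log T ≠ 0 := by linarith
      field_simp
    rw [e3, e4]
    apply mul_lt_mul_of_pos_left k3
    apply div_pos (by positivity)
    have : 0 < Real.log T := by linarith
    positivity
  set g := gb C H T with hg
  set F := (FS_finite c T).toFinset with hF
  have hsub : Icc (T + 2) (2 * T - 1 - H) ⊆ {t : ℝ | T ≤ t ∧ t ≤ 2 * T ∧ ¬ ∃ n : ℕ, 1 ≤ n ∧ t ≤ ord n ∧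
      ord n ≤ ord (n + 1) ∧ ord (n + 1) ≤ t + H ∧ ord (n + 1) - ord n ≤ g} ∪
      ⋃ n ∈ F, Icc (ord n - H) (ord n) := by
    intro t ht
    by_cases hex : ∃ n : ℕ, 1 ≤ n ∧ t ≤ ord n ∧
      ord n ≤ ord (n + 1) ∧ ord (n + 1) ≤ t + H ∧ ord (n + 1) - ord n ≤ g
    · right
      obtain ⟨n, a1, a2, a3, a4, a5⟩ := hex
      rw [Set.mem_iUnion₂]
      refine ⟨n, ?_, by linarith, a2⟩
      rw [hF, Set.Finite.mem_toFinset]
      exact ⟨a1, ht.1.trans a2, by linarith [ht.2], a5.trans_lt hlt⟩
    · left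
      exact ⟨by linarith [ht.1], by linarith [ht.2], hex⟩
  have h3 := (measure_mono hsub).trans (measure_union_le (μ := volume) _ _)
  have h4 : volume (⋃ n ∈ F, Icc (ord n - H) (ord n)) ≤ ENNReal.ofReal (F.card * H) := by
    refine (measure_biUnion_finset_le F _).trans ?_
    have e : ∀ n ∈ F, volume (Icc (ord n - H) (ord n)) = ENNReal.ofReal H := by
      intro n _
      rw [Real.volume_Icc]
      congr 1
      ring
    rw [Finset.sum_congr rfl e, Finset.sum_const, nsmul_eq_mul,
      ENNReal.ofReal_mul (Nat.cast_nonneg _), ENNReal.ofReal_natCast]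
  have h5 := h3.trans (add_le_add h2 h4)
  rw [Real.volume_Icc, ← ENNReal.ofReal_add (by positivity) (by positivity),
    ENNReal.ofReal_le_ofReal_iff (by positivity), pow_one] at h5
  have h6 : T / Real.log T ≤ T / 100 := div_le_div_of_nonneg_left hTpos.le (by norm_num) hL
  have h7 : T / 2 ≤ F.card * H := by linarith
  -- `T = T ^ θ * (T ^ ((1 - θ) / 2)) ^ 2`
  have h8 : T = H * (T ^ ((1 - θ) / 2) * T ^ ((1 - θ) / 2)) := by
    rw [hH, ← Real.rpow_add hTpos, ← Real.rpow_add hTpos]
    have : θ + ((1 - θ) / 2 + (1 - θ) / 2) = 1 := by ring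
    rw [this, Real.rpow_one]
  set u : ℝ := T ^ ((1 - θ) / 2) with hu
  have h9 : H * (u * u) / 2 ≤ F.card * H := by
    rw [← h8]
    exact h7
  have h10 : u * u / 2 ≤ F.card := by
    have : H * (u * u / 2) ≤ H * F.card := by linarith
    exact le_of_mul_le_mul_left this hHpos
  nlinarith

end CNT

end Pool.Agent.T2H92.RZ
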