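import Mathlib

/-! # Random perturbations of the ordinates of zeta zeros: the probabilistic packages

Only Mathlib. PROB and BC are independent of each other (PROB is a hypothesis of BC). -/

set_option autoImplicit false

namespace Pool.Agent.T2H92.RZ

open MeasureTheory ProbabilityTheory Filter Topology

/-- PROB (20 min). Independent variables. Choose `F' ⊆ F`, all elements of the same parity, with at least half of the elements
of `F`. The pairs `{n, n + 1}`, `n ∈ F'`, are disjoint, so the events `a ≤ X n ∧ X (n + 1) ≤ -a` are independent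
(`iIndepFun.finsets_comp` with `J = F'`, `S n = {n, n + 1}`, and `iIndepFun.measure_inter_preimage_eq_mul`), each of probability
at least `q ^ 2` (`iIndepFun.indepFun`). Alternatively induction on `F'` by its greatest element: the event for the new element is
independent of the vector of all smaller variables (`iIndepFun.indepFun_finset`). -/
def S_PROB : Prop :=
  ∀ (Ω : Type) [MeasurableSpace Ω] (P : Measure Ω) [IsProbabilityMeasure P] (X : ℕ → Ω → ℝ),
    (∀ n, Measurable (X n)) → iIndepFun X P → ∀ a q : ℝ, 0 < a → 0 < q → q ≤ 1 →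
    (∀ n, ENNReal.ofReal q ≤ P {ω | a ≤ X n ω}) → (∀ n, ENNReal.ofReal q ≤ P {ω | X n ω ≤ -a}) →
    ∀ F : Finset ℕ, P {ω | ∀ n ∈ F, ¬ (a ≤ X n ω ∧ X (n + 1) ω ≤ -a)} ≤
      ENNReal.ofReal ((1 - q ^ 2) ^ (F.card / 2))

/-- BC (15 min, dep PROB). Borel-Cantelli (`measure_setOf_frequently_eq_zero` or `ae_eventually_notMem`): the series of
`(1 - q ^ 2) ^ ((F M).card / 2)` converges, because `(F M).card ≥ M ^ s` for large `M`: if `0 < ρ < 1` (`ρ = 1 - q ^ 2`; the case
`ρ = 0` is easier) then `ρ ^ (m / 2) ≤ ρ⁻¹ exp (-c M ^ s)` and `exp (-c x ^ s) = o(x ^ (-2))`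
(`isLittleO_exp_neg_mul_rpow_atTop` composed with `x ^ s → ∞`). -/
def S_BC : Prop :=
  ∀ (Ω : Type) [MeasurableSpace Ω] (P : Measure Ω) [IsProbabilityMeasure P] (X : ℕ → Ω → ℝ),
    (∀ n, Measurable (X n)) → iIndepFun X P → ∀ a q : ℝ, 0 < a → 0 < q → q ≤ 1 →
    (∀ n, ENNReal.ofReal q ≤ P {ω | a ≤ X n ω}) → (∀ n, ENNReal.ofReal q ≤ P {ω | X n ω ≤ -a}) →
    ∀ (F : ℕ → Finset ℕ) (s : ℝ), 0 < s → (∀ᶠ M : ℕ in atTop, (M : ℝ) ^ s ≤ ((F M).card : ℝ)) →
      ∀ᵐ ω ∂P, ∀ᶠ M : ℕ in atTop, ∃ n ∈ F M, a ≤ X n ω ∧ X (n + 1) ω ≤ -a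

end Pool.Agent.T2H92.RZ
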